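import Pool.Agent.MP_07406a_pr.Defs

-- part MP_07406a_pr.Walk
section

/-! Walk expansions: recursion, translation invariance, supermultiplicativity, Laplace transform. -/

set_option autoImplicit false

namespace Pool.Agent.MP_07406a_pr

open Filter Topology
open scoped ENNReal Classical

variable {A : Type}

/-- walks with `n` steps -/
noncomputable def W (j : A → A → ℝ≥0∞) (n : ℕ) (x y : A) : ℝ≥0∞ :=
  ∑' γ : Fin (n + 1) → A,
    if γ 0 = x ∧ γ (Fin.last n) = y then ∏ i : Fin n, j (γ i.castSucc) (γ i.succ) else 0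

lemma W_zero (j : A → A → ℝ≥0∞) (x y : A) : W j 0 x y = if x = y then 1 else 0 := by
  unfold W
  rw [tsum_eq_single (fun _ => x)]
  · simp
  · intro γ hγ
    rw [if_neg]
    rintro ⟨h, -⟩
    apply hγ
    funext i
    rw [← h, Fin.fin_one_eq_zero i]

lemma W_succ (j : A → A → ℝ≥0∞) (n : ℕ) (x y : A) :
    W j (n + 1) x y = ∑' z, j x z * W j n z y := by
  unfold W
  rw [← (Fin.consEquiv fun _ : Fin (n + 2) => A).tsum_eq, ENNReal.tsum_prod', tsum_eq_single x]
  · simp only [← ENNReal.tsum_mul_left]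
    rw [ENNReal.tsum_comm]
    refine tsum_congr fun γ => ?_
    rw [tsum_eq_single (γ 0)]
    · simp only [Fin.consEquiv_apply, Fin.cons_zero, true_and, ← Fin.succ_last, Fin.cons_succ,
        Fin.prod_univ_succ, Fin.castSucc_zero, Fin.castSucc_succ]
      split_ifs <;> simp
    · intro z hz
      rw [if_neg (fun h => hz h.1.symm), mul_zero]
  · intro x' hx'
    simp [hx']

/-- the Green function -/
noncomputable def GG (j : A → A → ℝ≥0∞) (x y : A) : ℝ≥0∞ := ∑' n, W j n x y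

lemma GG_rec (j : A → A → ℝ≥0∞) (x y : A) :
    GG j x y = (if x = y then 1 else 0) + ∑' z, j x z * GG j z y := by
  unfold GG
  rw [tsum_eq_zero_add' ENNReal.summable, W_zero]
  congr 1
  simp only [W_succ, ← ENNReal.tsum_mul_left]
  rw [ENNReal.tsum_comm]

lemma GG_supermul (j : A → A → ℝ≥0∞) (x y z : A) : GG j z x * GG j x y ≤ GG j x x * GG j z y := by
  have key : ∀ n z, (∑ k ∈ Finset.range n, W j k z x) * GG j x y ≤ GG j x x * GG j z y := by
    intro n
    induction n with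
    | zero => intro z; simp
    | succ n ih =>
      intro z
      by_cases h : z = x
      · subst h
        gcongr
        exact ENNReal.sum_le_tsum _
      · rw [Finset.sum_range_succ', W_zero, if_neg h, add_zero, GG_rec j z y]
        simp only [W_succ]
        rw [← Summable.tsum_finsetSum (fun _ _ => ENNReal.summable), ← ENNReal.tsum_mul_right]
        refine le_trans ?_ (mul_le_mul_right le_add_self _)
        rw [← ENNReal.tsum_mul_left]
        refine ENNReal.tsum_le_tsum fun w => ?_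
        rw [← Finset.mul_sum, mul_assoc, mul_left_comm (GG j x x)]
        exact mul_le_mul_right (ih w) _
  unfold GG at key ⊢
  rw [ENNReal.tsum_eq_iSup_nat (f := fun n => W j n z x), ENNReal.iSup_mul]
  exact iSup_le fun n => key n z

lemma one_le_GG (j : A → A → ℝ≥0∞) (x : A) : 1 ≤ GG j x x := by
  rw [GG_rec, if_pos rfl]; exact le_self_add

lemma j_le_GG (j : A → A → ℝ≥0∞) (x y : A) : j x y ≤ GG j x y := by
  rw [GG_rec]
  refine le_trans ?_ le_add_self
  refine le_trans ?_ (ENNReal.le_tsum y)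
  exact le_mul_of_one_le_right' (one_le_GG j y)

section group
variable [AddCommGroup A] {j : A → A → ℝ≥0∞} (hj : ∀ x y a, j (x + a) (y + a) = j x y)
include hj

lemma W_transl (n : ℕ) (x y a : A) : W j n (x + a) (y + a) = W j n x y := by
  induction n generalizing x with
  | zero => simp [W_zero]
  | succ n ih =>
    rw [W_succ, W_succ, ← (Equiv.addRight a).tsum_eq]
    simp [hj, ih]

lemma GG_transl (x y a : A) : GG j (x + a) (y + a) = GG j x y := by
  simp [GG, W_transl hj]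

lemma GG_supermul' (x y : A) : GG j 0 x * GG j 0 y ≤ GG j 0 0 * GG j 0 (x + y) := by
  have := GG_supermul j x (x + y) 0
  have h1 := GG_transl hj 0 y x
  have h2 := GG_transl hj 0 0 x
  rw [zero_add, add_comm y x] at h1
  rw [zero_add] at h2
  rwa [h1, h2] at this

lemma W_laplace {e : A → ℝ≥0∞} (he0 : e 0 = 1) (he : ∀ x y, e (x + y) = e x * e y) (n : ℕ) :
    ∑' y, W j n 0 y * e y = (∑' z, j 0 z * e z) ^ n := by
  induction n with
  | zero =>
    simp only [W_zero, pow_zero]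
    rw [tsum_eq_single 0] <;> simp +contextual [he0, eq_comm]
  | succ n ih =>
    simp only [W_succ, ← ENNReal.tsum_mul_right]
    rw [ENNReal.tsum_comm, pow_succ', ← ih, ← ENNReal.tsum_mul_right]
    refine tsum_congr fun z => ?_
    rw [← ENNReal.tsum_mul_left, ← (Equiv.addRight z).tsum_eq]
    refine tsum_congr fun y => ?_
    have := W_transl hj n 0 y z
    rw [zero_add] at this
    simp only [Equiv.coe_addRight, this, he]
    ring

lemma GG_laplace {e : A → ℝ≥0∞} (he0 : e 0 = 1) (he : ∀ x y, e (x + y) = e x * e y) :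
    ∑' y, GG j 0 y * e y = (1 - ∑' z, j 0 z * e z)⁻¹ := by
  simp only [GG, ← ENNReal.tsum_mul_right]
  rw [ENNReal.tsum_comm, ← ENNReal.tsum_geometric]
  exact tsum_congr fun n => W_laplace hj he0 he n

end group

end Pool.Agent.MP_07406a_pr

end

-- part MP_07406a_pr.Fekete
section

/-! Directional Fekete lemma for subadditive functions on the lattice, and dual vectors. -/

set_option autoImplicit false

namespace Pool.Agent.MP_07406a_pr

open Filter Topology

variable {d : ℕ}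

/-- rounding to the lattice -/
noncomputable def rnd (v : Fin d → ℝ) : Fin d → ℤ := fun i => ⌊v i + 1 / 2⌋

lemma rnd_err (v : Fin d → ℝ) (i : Fin d) : |(rnd v i : ℝ) - v i| ≤ 1 / 2 := by
  unfold rnd
  have h1 := Int.floor_le (v i + 1 / 2)
  have h2 := Int.lt_floor_add_one (v i + 1 / 2)
  rw [abs_le]; constructor <;> linarith

lemma rnd_cast (x : Fin d → ℤ) (n : ℕ) : rnd ((n : ℝ) • fun i => (x i : ℝ)) = n • x := by
  funext i
  simp only [rnd, Pi.smul_apply, smul_eq_mul, nsmul_eq_mul]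
  rw [Int.floor_eq_iff]
  push_cast
  constructor <;> linarith

section
variable {a : (Fin d → ℤ) → ℝ} (hsub : ∀ x y, a (x + y) ≤ a x + a y)
include hsub

omit hsub in
lemma box_bound (M : ℝ) : ∃ B : ℝ, 0 ≤ B ∧ ∀ e : Fin d → ℤ, (∀ i, |(e i : ℝ)| ≤ M) → a e ≤ B := by
  obtain ⟨B, hB⟩ := ((Fintype.piFinset fun _ : Fin d => Finset.Icc (-⌈M⌉) ⌈M⌉).finite_toSet.image
    a).bddAbove
  refine ⟨max B 0, le_max_right _ _, fun e he => le_max_of_le_left (hB ⟨e, ?_, rfl⟩)⟩
  simp only [Fintype.coe_piFinset, Set.mem_pi, Set.mem_univ, Finset.coe_Icc, Set.mem_Icc,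
    forall_true_left]
  intro i
  have h1 := abs_le.1 ((he i).trans (Int.le_ceil M))
  constructor
  · exact_mod_cast h1.1
  · exact_mod_cast h1.2

lemma near_bound (M : ℝ) : ∃ B : ℝ, 0 ≤ B ∧ ∀ x y : Fin d → ℤ,
    (∀ i, |(x i : ℝ) - y i| ≤ M) → a x ≤ a y + B := by
  obtain ⟨B, hB0, hB⟩ := box_bound (a := a) M
  refine ⟨B, hB0, fun x y h => ?_⟩
  have := hsub y (x - y)
  rw [add_sub_cancel] at this
  have h2 := hB (x - y) (fun i => by simpa using h i)
  linarith

lemma rnd_add : ∃ B : ℝ, 0 ≤ B ∧ ∀ v w : Fin d → ℝ, a (rnd (v + w)) ≤ a (rnd v) + a (rnd w) + B := by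
  obtain ⟨B, hB0, hB⟩ := near_bound hsub (3 / 2)
  refine ⟨B, hB0, fun v w => ?_⟩
  have h := hB (rnd (v + w)) (rnd v + rnd w) fun i => by
    have h1 := abs_le.1 (rnd_err (v + w) i)
    have h2 := abs_le.1 (rnd_err v i)
    have h3 := abs_le.1 (rnd_err w i)
    simp only [Pi.add_apply] at h1 ⊢
    push_cast
    rw [abs_le]; constructor <;> linarith
  linarith [hsub (rnd v) (rnd w)]

lemma exists_lim {C : ℝ} (hC : ∀ x, -C ≤ a x) (s : Fin d → ℝ) :
    ∃ l, Tendsto (fun n : ℕ => a (rnd ((n : ℝ) • s)) / n) atTop (𝓝 l) := by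
  obtain ⟨B, hB0, hB⟩ := rnd_add hsub
  have hs : Subadditive fun n : ℕ => a (rnd ((n : ℝ) • s)) + B := by
    intro m n
    have := hB ((m : ℝ) • s) ((n : ℝ) • s)
    rw [← add_smul] at this
    push_cast
    linarith
  have hb : BddBelow (Set.range fun n : ℕ => (a (rnd ((n : ℝ) • s)) + B) / n) := by
    refine ⟨-|C|, ?_⟩
    rintro _ ⟨n, rfl⟩
    rcases Nat.eq_zero_or_pos n with h | h
    · simp [h]
    · have h1 : (1 : ℝ) ≤ n := by exact_mod_cast h
      simp only
      rw [le_div_iff₀ (by linarith)]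
      nlinarith [hC (rnd ((n : ℝ) • s)), le_abs_self C, abs_nonneg C]
  refine ⟨hs.lim, ?_⟩
  have := (hs.tendsto_lim hb).sub (tendsto_const_div_atTop_nhds_zero_nat B)
  simp only [sub_zero] at this
  refine this.congr fun n => ?_
  ring

theorem exists_nu {C : ℝ} (hC : ∀ x, -C ≤ a x) (h0 : a 0 ≤ 0) : ∃ ν : (Fin d → ℝ) → ℝ,
    (∀ s, Tendsto (fun n : ℕ => a (rnd ((n : ℝ) • s)) / n) atTop (𝓝 (ν s))) ∧
    (∀ s s', ν (s + s') ≤ ν s + ν s') ∧ (∀ c : ℝ, 0 < c → ∀ s, ν (c • s) = c * ν s) ∧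
    ∀ x : Fin d → ℤ, ν (fun i => (x i : ℝ)) ≤ a x := by
  choose ν hν using exists_lim hsub hC
  refine ⟨ν, hν, ?_, ?_, ?_⟩
  · intro s s'
    obtain ⟨B, hB0, hB⟩ := rnd_add hsub
    have h1 := ((hν s).add (hν s')).add (tendsto_const_div_atTop_nhds_zero_nat B)
    rw [add_zero] at h1
    refine le_of_tendsto_of_tendsto' (hν (s + s')) h1 fun n => ?_
    rw [← add_div, ← add_div, smul_add]
    exact div_le_div_of_nonneg_right (hB _ _) (Nat.cast_nonneg n)
  · intro c hc s
    obtain ⟨B, hB0, hB⟩ := near_bound hsub (1 + ∑ i, |s i|)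
    have hm : Tendsto (fun n : ℕ => ⌊(n : ℝ) * c⌋₊) atTop atTop :=
      tendsto_nat_floor_atTop.comp (tendsto_natCast_atTop_atTop.atTop_mul_const hc)
    have hq : Tendsto (fun n : ℕ => (⌊(n : ℝ) * c⌋₊ : ℝ) / n) atTop (𝓝 c) := by
      have := (tendsto_nat_floor_mul_div_atTop hc.le).comp (tendsto_natCast_atTop_atTop (R := ℝ))
      refine this.congr fun n => ?_
      simp [mul_comm]
    have h1 : Tendsto (fun n : ℕ => a (rnd ((⌊(n : ℝ) * c⌋₊ : ℝ) • s)) / n) atTop (𝓝 (c * ν s)) := by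
      refine (hq.mul ((hν s).comp hm)).congr' ?_
      filter_upwards [hm.eventually_gt_atTop 0] with n hn
      have : (⌊(n : ℝ) * c⌋₊ : ℝ) ≠ 0 := by exact_mod_cast hn.ne'
      simp only [Function.comp]
      field_simp
    have hclose : ∀ (n : ℕ) i, |(rnd ((n : ℝ) • c • s) i : ℝ) - rnd ((⌊(n : ℝ) * c⌋₊ : ℝ) • s) i|
        ≤ 1 + ∑ i, |s i| := by
      intro n i
      have h1 := rnd_err ((n : ℝ) • c • s) i
      have h2 := rnd_err ((⌊(n : ℝ) * c⌋₊ : ℝ) • s) i
      have h3 : |s i| ≤ ∑ i, |s i| :=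
        Finset.single_le_sum (f := fun i => |s i|) (fun _ _ => abs_nonneg _) (Finset.mem_univ i)
      have h4 := Nat.floor_le (show 0 ≤ (n : ℝ) * c by positivity)
      have h5 := Nat.lt_floor_add_one ((n : ℝ) * c)
      have h6 : |((n : ℝ) * c - ⌊(n : ℝ) * c⌋₊) * s i| ≤ |s i| := by
        rw [abs_mul, abs_of_nonneg (by linarith)]
        nlinarith [abs_nonneg (s i)]
      simp only [Pi.smul_apply, smul_eq_mul] at h1 h2
      rw [abs_le] at h1 h2 h6 ⊢
      constructor <;> nlinarith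
    have hB' := tendsto_const_div_atTop_nhds_zero_nat B
    apply le_antisymm
    · have h2 := h1.add hB'
      rw [add_zero] at h2
      refine le_of_tendsto_of_tendsto' (hν (c • s)) h2 fun n => ?_
      rw [← add_div]
      exact div_le_div_of_nonneg_right (hB _ _ (hclose n)) (Nat.cast_nonneg n)
    · have h2 := (hν (c • s)).add hB'
      rw [add_zero] at h2
      refine le_of_tendsto_of_tendsto' h1 h2 fun n => ?_
      rw [← add_div]
      exact div_le_div_of_nonneg_right (hB _ _ fun i => by rw [abs_sub_comm]; exact hclose n i)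
        (Nat.cast_nonneg n)
  · intro x
    have h1 : ∀ n : ℕ, a (n • x) ≤ n * a x := by
      intro n
      induction n with
      | zero => simpa using h0
      | succ n ih =>
        rw [succ_nsmul]
        push_cast
        linarith [hsub (n • x) x]
    refine le_of_tendsto (hν _) ?_
    filter_upwards [eventually_gt_atTop 0] with n hn
    have : (0 : ℝ) < n := by exact_mod_cast hn
    rw [rnd_cast, div_le_iff₀ this, mul_comm]
    exact h1 n

end

/-- existence of a dual vector -/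
theorem exists_dual {ν : (Fin d → ℝ) → ℝ} (hadd : ∀ s s', ν (s + s') ≤ ν s + ν s')
    (hhom : ∀ c : ℝ, 0 < c → ∀ s, ν (c • s) = c * ν s) (hpos : ∀ s, 0 ≤ ν s) {s : Fin d → ℝ}
    (hs : s ≠ 0) : ∃ t : Fin d → ℝ, t ⬝ᵥ s = ν s ∧ ∀ x, t ⬝ᵥ x ≤ ν x := by
  obtain ⟨g, hg1, hg2⟩ := exists_extension_of_le_sublinear
    (LinearPMap.mkSpanSingleton s (ν s) hs) ν hhom hadd (by
      rintro ⟨x, hx⟩
      obtain ⟨c, rfl⟩ := Submodule.mem_span_singleton.1 hx
      rw [LinearPMap.mkSpanSingleton'_apply]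
      simp only [RingHom.id_apply, smul_eq_mul]
      rcases lt_or_ge 0 c with h | h
      · rw [hhom c h]
      · nlinarith [hpos s, hpos (c • s)])
  have e : ∀ x, (fun i => g (Pi.single i 1)) ⬝ᵥ x = g x := by
    intro x
    rw [LinearMap.pi_apply_eq_sum_univ g x]
    simp only [dotProduct, smul_eq_mul]
    refine Finset.sum_congr rfl fun i _ => ?_
    rw [mul_comm]
    congr 2
    funext j
    simp [Pi.single_apply, eq_comm]
  refine ⟨fun i => g (Pi.single i 1), ?_, fun x => by rw [e]; exact hg2 x⟩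
  rw [e]
  have := hg1 ⟨s, Submodule.mem_span_singleton_self s⟩
  rw [LinearPMap.mkSpanSingleton_apply] at this
  exact this

lemma tendsto_dot (t s : Fin d → ℝ) :
    Tendsto (fun n : ℕ => (t ⬝ᵥ fun i => (rnd ((n : ℝ) • s) i : ℝ)) / n) atTop (𝓝 (t ⬝ᵥ s)) := by
  simp only [dotProduct, Finset.sum_div, mul_div_assoc]
  refine tendsto_finsetSum _ fun i _ => Tendsto.const_mul _ ?_
  rw [tendsto_iff_norm_sub_tendsto_zero]
  refine squeeze_zero' (Eventually.of_forall fun _ => norm_nonneg _) ?_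
    (tendsto_const_div_atTop_nhds_zero_nat (1 / 2))
  filter_upwards [eventually_gt_atTop 0] with n hn
  have h : (0 : ℝ) < n := by exact_mod_cast hn
  have := rnd_err ((n : ℝ) • s) i
  simp only [Pi.smul_apply, smul_eq_mul] at this
  rw [Real.norm_eq_abs, show (rnd ((n : ℝ) • s) i : ℝ) / n - s i
    = ((rnd ((n : ℝ) • s) i : ℝ) - n * s i) / n by field_simp, abs_div, abs_of_pos h]
  exact div_le_div_of_nonneg_right this h.le

end Pool.Agent.MP_07406a_pr

end

-- part MP_07406a_pr.KRW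
section

/-! The inverse correlation length of the killed random walk as a support function. -/

set_option autoImplicit false

namespace Pool.Agent.MP_07406a_pr

open Filter Topology
open scoped ENNReal

variable {d : ℕ} {N : (Fin d → ℝ) → ℝ} {ψ : (Fin d → ℤ) → ℝ}

/-- tilted couplings -/
noncomputable def tilt (N : (Fin d → ℝ) → ℝ) (ψ : (Fin d → ℤ) → ℝ) (t : Fin d → ℝ)
    (x : Fin d → ℤ) : ℝ := J N ψ 0 x * Real.exp (t ⬝ᵥ fun i => (x i : ℝ))

lemma G_eq (lam : ℝ) (x y : Fin d → ℤ) :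
    G N ψ lam x y = GG (fun a b => ENNReal.ofReal (lam * J N ψ a b)) x y := by
  unfold G GG W
  refine tsum_congr fun n => tsum_congr fun γ => ?_
  congr

lemma J_transl (x y a : Fin d → ℤ) : J N ψ (x + a) (y + a) = J N ψ x y := by
  simp [J]

lemma J_nonneg (hψ : ∀ y, 0 ≤ ψ y) (x y : Fin d → ℤ) : 0 ≤ J N ψ x y := by
  unfold J
  split_ifs
  · exact le_rfl
  · exact mul_nonneg (hψ _) (Real.exp_pos _).le

lemma J_pos (hψ : ∀ y, y ≠ 0 → 0 < ψ y) {x y : Fin d → ℤ} (h : x ≠ y) : 0 < J N ψ x y := by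
  unfold J
  rw [if_neg h]
  exact mul_pos (hψ _ (sub_ne_zero.2 h)) (Real.exp_pos _)

lemma tilt_nonneg (hψ : ∀ y, 0 ≤ ψ y) (t : Fin d → ℝ) (x : Fin d → ℤ) : 0 ≤ tilt N ψ t x :=
  mul_nonneg (J_nonneg hψ _ _) (Real.exp_pos _).le

lemma G_laplace (hψ : ∀ y, 0 ≤ ψ y) {lam : ℝ} (hl : 0 ≤ lam) (t : Fin d → ℝ) :
    ∑' y, G N ψ lam 0 y * ENNReal.ofReal (Real.exp (t ⬝ᵥ fun i => (y i : ℝ)))
      = (1 - ∑' z, ENNReal.ofReal (lam * tilt N ψ t z))⁻¹ := by
  simp only [G_eq]
  rw [GG_laplace (j := fun a b => ENNReal.ofReal (lam * J N ψ a b)) (fun x y a => by rw [J_transl])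
    (e := fun y : Fin d → ℤ => ENNReal.ofReal (Real.exp (t ⬝ᵥ fun i => (y i : ℝ))))]
  · congr 2
    refine tsum_congr fun z => ?_
    rw [← ENNReal.ofReal_mul (mul_nonneg hl (J_nonneg hψ _ _)), tilt, mul_assoc]
  · simp [dotProduct]
  · intro x y
    rw [← ENNReal.ofReal_mul (Real.exp_pos _).le, ← Real.exp_add, ← dotProduct_add]
    congr 3
    funext i
    simp

lemma tsum_lt_one_iff (hψ : ∀ y, 0 ≤ ψ y) {lam : ℝ} (hl : 0 < lam) (t : Fin d → ℝ) :
    ∑' z, ENNReal.ofReal (lam * tilt N ψ t z) < 1 ↔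
      Summable (tilt N ψ t) ∧ lam * ∑' z, tilt N ψ t z < 1 := by
  have hnn : ∀ z, 0 ≤ lam * tilt N ψ t z := fun z => mul_nonneg hl.le (tilt_nonneg hψ t z)
  constructor
  · intro h
    have hs : Summable fun z => lam * tilt N ψ t z := by
      have := ENNReal.summable_toReal (h.trans ENNReal.one_lt_top).ne
      simpa only [ENNReal.toReal_ofReal (hnn _)] using this
    have hs' : Summable (tilt N ψ t) := (summable_mul_left_iff hl.ne').1 hs
    refine ⟨hs', ?_⟩
    rw [← ENNReal.ofReal_tsum_of_nonneg hnn hs, ENNReal.ofReal_lt_one, tsum_mul_left] at h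
    exact h
  · rintro ⟨h1, h2⟩
    rw [← ENNReal.ofReal_tsum_of_nonneg hnn (h1.mul_left _), ENNReal.ofReal_lt_one, tsum_mul_left]
    exact h2

lemma laplace_ne_top_iff (hψ : ∀ y, 0 ≤ ψ y) {lam : ℝ} (hl : 0 < lam) (t : Fin d → ℝ) :
    ∑' y, G N ψ lam 0 y * ENNReal.ofReal (Real.exp (t ⬝ᵥ fun i => (y i : ℝ))) ≠ ⊤ ↔
      Summable (tilt N ψ t) ∧ lam * ∑' z, tilt N ψ t z < 1 := by
  rw [G_laplace hψ hl.le, ENNReal.inv_ne_top, ← tsum_lt_one_iff hψ hl, Ne, tsub_eq_zero_iff_le,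
    not_le]

lemma tilt_zero : tilt N ψ 0 = fun x => J N ψ 0 x := by
  funext x; simp [tilt]

lemma lamC_eq (hψ : ∀ y, 0 ≤ ψ y) (hJ : HasSum (fun x => J N ψ 0 x) 1) : lamC N ψ = 1 := by
  have : {lam : ℝ | 0 ≤ lam ∧ ∑' x, G N ψ lam 0 x < ⊤} = Set.Ico 0 1 := by
    ext lam
    simp only [Set.mem_ofPred_eq, Set.mem_Ico]
    refine and_congr_right fun hl => ?_
    have h := G_laplace (N := N) hψ hl 0
    simp only [zero_dotProduct, Real.exp_zero, ENNReal.ofReal_one, mul_one, tilt_zero] at h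
    rw [h, lt_top_iff_ne_top, ENNReal.inv_ne_top, Ne, tsub_eq_zero_iff_le, not_le,
      ← ENNReal.ofReal_tsum_of_nonneg (fun z => mul_nonneg hl (J_nonneg hψ _ _))
        (hJ.summable.mul_left _), ENNReal.ofReal_lt_one, tsum_mul_left, hJ.tsum_eq, mul_one]
  rw [lamC, this, csSup_Ico zero_lt_one]

theorem krw (hψ : ∀ y, 0 ≤ ψ y) (hψ' : ∀ y, y ≠ 0 → 0 < ψ y) (hJ : HasSum (fun x => J N ψ 0 x) 1)
    {lam : ℝ} (hl : 0 < lam) (hl1 : lam < 1) :
    (∀ s, Tendsto (rate N ψ s lam) atTop (𝓝 (nu N ψ s lam))) ∧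
    (∀ t, Summable (tilt N ψ t) → lam * ∑' z, tilt N ψ t z < 1 → ∀ s, t ⬝ᵥ s ≤ nu N ψ s lam) ∧
    ((∀ ε : ℝ, 0 < ε → Summable fun x : Fin d → ℤ =>
        Real.exp (-ε * nu N ψ (fun i => (x i : ℝ)) lam)) →
      ∀ s, s ≠ 0 → ∃ t, t ⬝ᵥ s = nu N ψ s lam ∧ ∀ ε : ℝ, 0 < ε → ε < 1 →
        Summable (tilt N ψ ((1 - ε) • t)) ∧ lam * ∑' z, tilt N ψ ((1 - ε) • t) z < 1) := by
  have hfin : ∑' y, G N ψ lam 0 y ≠ ⊤ := by
    have := (laplace_ne_top_iff (N := N) hψ hl 0).2
      ⟨by rw [tilt_zero]; exact hJ.summable, by rw [tilt_zero, hJ.tsum_eq]; linarith⟩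
    simpa using this
  have hGfin : ∀ y, G N ψ lam 0 y ≠ ⊤ := ENNReal.ne_top_of_tsum_ne_top hfin
  have hGpos : ∀ y, G N ψ lam 0 y ≠ 0 := by
    intro y
    rw [G_eq]
    by_cases h : (0 : Fin d → ℤ) = y
    · subst h
      exact (zero_lt_one.trans_le (one_le_GG _ _)).ne'
    · refine (lt_of_lt_of_le ?_ (j_le_GG _ _ _)).ne'
      exact ENNReal.ofReal_pos.2 (mul_pos hl (J_pos hψ' h))
  set g : (Fin d → ℤ) → ℝ := fun y => (G N ψ lam 0 y).toReal with hg
  have hgpos : ∀ y, 0 < g y := fun y => ENNReal.toReal_pos (hGpos y) (hGfin y)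
  set a : (Fin d → ℤ) → ℝ := fun y => Real.log (g 0) - Real.log (g y) with ha
  have hsub : ∀ x y, a (x + y) ≤ a x + a y := by
    intro x y
    have h1 : G N ψ lam 0 x * G N ψ lam 0 y ≤ G N ψ lam 0 0 * G N ψ lam 0 (x + y) := by
      simp only [G_eq]
      exact GG_supermul' (fun x y a => by rw [J_transl]) x y
    have h2 : g x * g y ≤ g 0 * g (x + y) := by
      simp only [hg, ← ENNReal.toReal_mul]
      exact ENNReal.toReal_mono (ENNReal.mul_ne_top (hGfin _) (hGfin _)) h1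
    have h3 := Real.log_le_log (mul_pos (hgpos x) (hgpos y)) h2
    rw [Real.log_mul (hgpos _).ne' (hgpos _).ne', Real.log_mul (hgpos _).ne' (hgpos _).ne'] at h3
    simp only [ha]; linarith
  have hlow : ∀ t, Summable (tilt N ψ t) → lam * ∑' z, tilt N ψ t z < 1 →
      ∃ C, ∀ x : Fin d → ℤ, (t ⬝ᵥ fun i => (x i : ℝ)) - C ≤ a x := by
    intro t h1 h2
    have h3 := (laplace_ne_top_iff (N := N) hψ hl t).2 ⟨h1, h2⟩
    set S := ∑' y, G N ψ lam 0 y * ENNReal.ofReal (Real.exp (t ⬝ᵥ fun i => (y i : ℝ))) with hS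
    refine ⟨Real.log S.toReal - Real.log (g 0), fun x => ?_⟩
    have h4 : g x * Real.exp (t ⬝ᵥ fun i => (x i : ℝ)) ≤ S.toReal := by
      have := ENNReal.toReal_mono h3 (ENNReal.le_tsum (f := fun y => G N ψ lam 0 y *
        ENNReal.ofReal (Real.exp (t ⬝ᵥ fun i => (y i : ℝ)))) x)
      rwa [ENNReal.toReal_mul, ENNReal.toReal_ofReal (Real.exp_pos _).le] at this
    have h5 := Real.log_le_log (mul_pos (hgpos x) (Real.exp_pos _)) h4
    rw [Real.log_mul (hgpos _).ne' (Real.exp_pos _).ne', Real.log_exp] at h5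
    simp only [ha]; linarith
  obtain ⟨C0, hC0⟩ := hlow 0 (by rw [tilt_zero]; exact hJ.summable)
    (by rw [tilt_zero, hJ.tsum_eq]; linarith)
  obtain ⟨ν, hν1, hν2, hν3, hν4⟩ := exists_nu hsub (C := C0) (fun x => by simpa using hC0 x)
    (by simp [ha])
  have hrate : ∀ s, Tendsto (rate N ψ s lam) atTop (𝓝 (ν s)) := by
    intro s
    have := (hν1 s).sub (tendsto_const_div_atTop_nhds_zero_nat (Real.log (g 0)))
    rw [sub_zero] at this
    refine this.congr fun n => ?_
    have e : rnd ((n : ℝ) • s) = fun i => ⌊(n : ℝ) * s i + 1 / 2⌋ := rfl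
    simp only [ha, hg, rate, e]
    ring
  have hnu : ∀ s, nu N ψ s lam = ν s := fun s => (hrate s).limUnder_eq
  have hL : ∀ t, Summable (tilt N ψ t) → lam * ∑' z, tilt N ψ t z < 1 → ∀ s, t ⬝ᵥ s ≤ ν s := by
    intro t h1 h2 s
    obtain ⟨C, hC⟩ := hlow t h1 h2
    have := (tendsto_dot t s).sub (tendsto_const_div_atTop_nhds_zero_nat C)
    rw [sub_zero] at this
    refine le_of_tendsto_of_tendsto' this (hν1 s) fun n => ?_
    rw [← sub_div]
    exact div_le_div_of_nonneg_right (hC _) (Nat.cast_nonneg n)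
  simp only [hnu]
  refine ⟨hrate, hL, fun hsum s hs => ?_⟩
  have hpos : ∀ s, 0 ≤ ν s := fun s => by
    simpa using hL 0 (by rw [tilt_zero]; exact hJ.summable)
      (by rw [tilt_zero, hJ.tsum_eq]; linarith) s
  obtain ⟨t, ht1, ht2⟩ := exists_dual hν2 hν3 hpos hs
  refine ⟨t, ht1, fun ε hε hε1 => (laplace_ne_top_iff (N := N) hψ hl _).1 ?_⟩
  refine ne_top_of_le_ne_top (((hsum ε hε).mul_left (g 0)).tsum_ofReal_ne_top)
    (ENNReal.tsum_le_tsum fun x => ?_)
  rw [← ENNReal.ofReal_toReal (hGfin x), ← ENNReal.ofReal_mul ENNReal.toReal_nonneg]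
  refine ENNReal.ofReal_le_ofReal ?_
  have e : (G N ψ lam 0 x).toReal = g 0 * Real.exp (-a x) := by
    simp only [ha, neg_sub, Real.exp_sub, Real.exp_log (hgpos _)]
    have := (hgpos 0).ne'
    field_simp
    rfl
  rw [e, mul_assoc, ← Real.exp_add]
  refine mul_le_mul_of_nonneg_left (Real.exp_le_exp.2 ?_) (hgpos 0).le
  rw [smul_dotProduct, smul_eq_mul]
  nlinarith [ht2 fun i => (x i : ℝ), hν4 x]

end Pool.Agent.MP_07406a_pr

end

-- part MP_07406a_pr.Example
section

/-! The example: `d = 2`, the `ℓ¹` norm, and `ψ (x) = c (1 + |x₀|)⁻³ (1 + |x₁|)⁻³`. -/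

set_option autoImplicit false

namespace Pool.Agent.MP_07406a_pr

open Filter Topology

/-- the `ℓ¹` norm -/
noncomputable def N1 (x : Fin 2 → ℝ) : ℝ := ∑ i, |x i|

/-- the unnormalised prefactor -/
noncomputable def psi0 (x : Fin 2 → ℤ) : ℝ := ∏ i, 1 / (1 + |(x i : ℝ)|) ^ 3

/-- the normalisation -/
noncomputable def ZZ : ℝ := ∑' x, J N1 psi0 0 x

/-- the prefactor -/
noncomputable def psi (x : Fin 2 → ℤ) : ℝ := psi0 x / ZZ

lemma summable_prod {f g : ℤ → ℝ} (hf : Summable f) (hg : Summable g) (hf0 : 0 ≤ f) (hg0 : 0 ≤ g) :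
    Summable fun x : Fin 2 → ℤ => f (x 0) * g (x 1) := by
  rw [← (finTwoArrowEquiv ℤ).symm.summable_iff]
  exact (hf.mul_of_nonneg hg hf0 hg0).congr fun p => by simp

lemma summable_inv_sq : Summable fun k : ℤ => 1 / (1 + |(k : ℝ)|) ^ 2 := by
  have h : Summable fun n : ℕ => 1 / (1 + (n : ℝ)) ^ 2 := by
    have := (summable_nat_add_iff 1).2 (Real.summable_one_div_nat_pow.2 one_lt_two)
    refine this.congr fun n => ?_
    push_cast; rw [add_comm]
  refine Summable.of_nat_of_neg ?_ ?_ <;> simpa using h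

lemma summable_exp_int {c : ℝ} (hc : 0 < c) : Summable fun k : ℤ => Real.exp (-c * |(k : ℝ)|) := by
  have h : Summable fun n : ℕ => Real.exp (-c * (n : ℝ)) := by
    have := Real.summable_exp_nat_mul_iff.2 (neg_lt_zero.2 hc)
    exact this.congr fun n => by rw [mul_comm]
  refine Summable.of_nat_of_neg ?_ ?_ <;> simpa using h

lemma psi0_pos (x : Fin 2 → ℤ) : 0 < psi0 x := Finset.prod_pos fun i _ => by positivity

lemma summable_psi0 : Summable fun x : Fin 2 → ℤ => psi0 x * (1 + |(x 0 : ℝ)| + |(x 1 : ℝ)|) := by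
  refine Summable.of_nonneg_of_le (fun x => mul_nonneg (psi0_pos x).le (by positivity)) (fun x => ?_)
    (summable_prod summable_inv_sq summable_inv_sq (fun _ => by positivity) (fun _ => by positivity))
  simp only [psi0, Fin.prod_univ_two]
  have ha := abs_nonneg (x 0 : ℝ)
  have hb := abs_nonneg (x 1 : ℝ)
  generalize |(x 0 : ℝ)| = a at ha ⊢
  generalize |(x 1 : ℝ)| = b at hb ⊢
  have : 1 / (1 + a) ^ 2 * (1 / (1 + b) ^ 2)
      = 1 / (1 + a) ^ 3 * (1 / (1 + b) ^ 3) * ((1 + a) * (1 + b)) := by field_simp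
  rw [this]
  gcongr
  nlinarith [mul_nonneg ha hb]

lemma J0_eq (c : ℝ) (x : Fin 2 → ℤ) : J N1 (fun x => psi0 x / c) 0 x
    = if x = 0 then 0 else psi0 x / c * Real.exp (-(|(x 0 : ℝ)| + |(x 1 : ℝ)|)) := by
  simp [J, N1, psi0, eq_comm]

lemma J0_le (x : Fin 2 → ℤ) : J N1 psi0 0 x ≤ psi0 x * (1 + |(x 0 : ℝ)| + |(x 1 : ℝ)|) := by
  have h := J0_eq 1 x
  simp only [div_one] at h
  rw [h]
  have hp := psi0_pos x
  split_ifs
  · positivity
  · have : Real.exp (-(|(x 0 : ℝ)| + |(x 1 : ℝ)|)) ≤ 1 :=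
      Real.exp_le_one_iff.2 (neg_nonpos.2 (by positivity))
    gcongr
    linarith [abs_nonneg (x 0 : ℝ), abs_nonneg (x 1 : ℝ)]

lemma summable_J0 : Summable fun x => J N1 psi0 0 x :=
  Summable.of_nonneg_of_le (fun _ => J_nonneg (fun y => (psi0_pos y).le) _ _) J0_le summable_psi0

lemma ZZ_pos : 0 < ZZ :=
  summable_J0.tsum_pos (fun _ => J_nonneg (fun y => (psi0_pos y).le) _ _) ![1, 1]
    (J_pos (fun y _ => psi0_pos y) (by decide))

lemma psi_pos (x : Fin 2 → ℤ) : 0 < psi x := div_pos (psi0_pos x) ZZ_pos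

lemma hasSum_J : HasSum (fun x => J N1 psi 0 x) 1 := by
  have := summable_J0.hasSum.div_const ZZ
  rw [show (∑' x, J N1 psi0 0 x) / ZZ = 1 from div_self ZZ_pos.ne'] at this
  have e : (fun x => J N1 psi 0 x) = fun x => J N1 psi0 0 x / ZZ := by
    funext x
    simp only [J, psi]; split_ifs <;> ring
  rw [e]; exact this

lemma admissible : Admissible N1 psi := by
  refine ⟨?_, ?_, ?_, fun y => (psi_pos y).le, fun y _ => psi_pos y, ?_, ?_, hasSum_J⟩
  · intro x y
    simp only [N1, ← Finset.sum_add_distrib]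
    exact Finset.sum_le_sum fun i _ => abs_add_le _ _
  · intro c x
    simp [N1, abs_mul, mul_add]
  · intro x hx
    have := (Finset.sum_eq_zero_iff_of_nonneg fun i _ => abs_nonneg (x i)).1 hx
    funext i
    simpa using this i (Finset.mem_univ i)
  · have h1 : Tendsto (fun r : ℝ => (|Real.log ZZ| + 6 * Real.log (1 + r)) / r) atTop (𝓝 0) := by
      have a : Tendsto (fun r : ℝ => |Real.log ZZ| / r) atTop (𝓝 0) :=
        tendsto_const_nhds.div_atTop tendsto_id
      have b : Tendsto (fun r : ℝ => Real.log (1 + r) ^ 1 / (1 * (1 + r) + -1)) atTop (𝓝 0) :=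
        (Real.tendsto_pow_log_div_mul_add_atTop 1 (-1) 1 one_ne_zero).comp
          (tendsto_atTop_add_const_left _ 1 tendsto_id)
      have := a.add (b.const_mul 6)
      simp only [mul_zero, add_zero] at this
      refine this.congr fun r => ?_
      rw [show 1 * (1 + r) + -1 = r by ring]; ring
    have h2 := h1.comp (tendsto_comap (f := fun y : Fin 2 → ℤ => N1 (fun i => (y i : ℝ))))
    refine squeeze_zero_norm (fun y => ?_) h2
    have ha := abs_nonneg (y 0 : ℝ)
    have hb := abs_nonneg (y 1 : ℝ)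
    have hN : N1 (fun i => (y i : ℝ)) = |(y 0 : ℝ)| + |(y 1 : ℝ)| := by simp [N1]
    simp only [Function.comp, hN, psi, psi0, Fin.prod_univ_two]
    generalize |(y 0 : ℝ)| = a at ha ⊢
    generalize |(y 1 : ℝ)| = b at hb ⊢
    rw [norm_div, Real.norm_eq_abs, Real.norm_eq_abs, abs_of_nonneg (add_nonneg ha hb)]
    refine div_le_div_of_nonneg_right ?_ (add_nonneg ha hb)
    rw [Real.log_div (by positivity) ZZ_pos.ne', Real.log_mul (by positivity) (by positivity),
      one_div, one_div, Real.log_inv, Real.log_inv, Real.log_pow, Real.log_pow]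
    have c1 : Real.log (1 + a) ≤ Real.log (1 + (a + b)) :=
      Real.log_le_log (by positivity) (by linarith)
    have c2 : Real.log (1 + b) ≤ Real.log (1 + (a + b)) :=
      Real.log_le_log (by positivity) (by linarith)
    have c3 : 0 ≤ Real.log (1 + a) := Real.log_nonneg (by linarith)
    have c4 : 0 ≤ Real.log (1 + b) := Real.log_nonneg (by linarith)
    have c5 := le_abs_self (Real.log ZZ)
    have c6 := neg_abs_le (Real.log ZZ)
    push_cast
    rw [abs_le]; constructor <;> linarith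
  · intro σ ε hε
    have h : ∀ i, |(ε i : ℝ)| = 1 := fun i => by rcases hε i with h | h <;> simp [h]
    constructor
    · intro x
      simp only [N1, abs_mul, h, one_mul]
      exact Equiv.sum_comp σ fun i => |x i|
    · intro y
      simp only [psi, psi0, Int.cast_mul, abs_mul, h, one_mul]
      rw [Equiv.prod_comp σ fun i => 1 / (1 + |(y i : ℝ)|) ^ 3]

/-- one-step weights -/
noncomputable def w (x : Fin 2 → ℤ) : ℝ := J N1 psi 0 x

lemma w_eq (x : Fin 2 → ℤ) :
    w x = if x = 0 then 0 else psi x * Real.exp (-(|(x 0 : ℝ)| + |(x 1 : ℝ)|)) := J0_eq ZZ x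

lemma w_nonneg (x : Fin 2 → ℤ) : 0 ≤ w x := J_nonneg (fun y => (psi_pos y).le) _ _

lemma tilt_eq (a b : ℝ) (x : Fin 2 → ℤ) :
    tilt N1 psi ![a, b] x = w x * Real.exp (a * x 0 + b * x 1) := by
  simp [tilt, w, dotProduct]

lemma w_exp_le {a b : ℝ} (ha : |a| ≤ 1) (hb : |b| ≤ 1) (x : Fin 2 → ℤ) :
    w x * Real.exp (a * x 0 + b * x 1) ≤ psi x := by
  rw [w_eq]
  have hp := psi_pos x
  split_ifs
  · simpa using hp.le
  · rw [mul_assoc, ← Real.exp_add]
    refine mul_le_of_le_one_right hp.le (Real.exp_le_one_iff.2 ?_)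
    have h1 := le_abs_self (a * x 0)
    have h2 := le_abs_self (b * x 1)
    rw [abs_mul] at h1 h2
    nlinarith [abs_nonneg (x 0 : ℝ), abs_nonneg (x 1 : ℝ)]

lemma summable_psi1 : Summable fun x : Fin 2 → ℤ => psi x * (1 + |(x 0 : ℝ)| + |(x 1 : ℝ)|) :=
  (summable_psi0.div_const ZZ).congr fun x => by simp only [psi]; ring

lemma summable_psi : Summable psi :=
  Summable.of_nonneg_of_le (fun x => (psi_pos x).le) (fun x => by
    nlinarith [psi_pos x, abs_nonneg (x 0 : ℝ), abs_nonneg (x 1 : ℝ)]) summable_psi1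

lemma summable_M {a b : ℝ} (ha : |a| ≤ 1) (hb : |b| ≤ 1) :
    Summable fun x : Fin 2 → ℤ => w x * Real.exp (a * x 0 + b * x 1) :=
  Summable.of_nonneg_of_le (fun x => mul_nonneg (w_nonneg x) (Real.exp_pos _).le) (w_exp_le ha hb)
    summable_psi

/-- the Laplace transform of the couplings -/
noncomputable def M (a b : ℝ) : ℝ := ∑' x : Fin 2 → ℤ, w x * Real.exp (a * x 0 + b * x 1)

/-- reflections -/
def refl2 (p q : ℤ) (hp : p * p = 1) (hq : q * q = 1) : (Fin 2 → ℤ) ≃ (Fin 2 → ℤ) where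
  toFun x := ![p * x 0, q * x 1]
  invFun x := ![p * x 0, q * x 1]
  left_inv x := by funext i; fin_cases i <;> simp [← mul_assoc, hp, hq]
  right_inv x := by funext i; fin_cases i <;> simp [← mul_assoc, hp, hq]

lemma w_refl (p q : ℤ) (hp : p = 1 ∨ p = -1) (hq : q = 1 ∨ q = -1) (x : Fin 2 → ℤ) :
    w ![p * x 0, q * x 1] = w x := by
  rw [w_eq, w_eq]
  have : (![p * x 0, q * x 1] = 0) ↔ x = 0 := by
    simp only [funext_iff, Fin.forall_fin_two]
    rcases hp with rfl | rfl <;> rcases hq with rfl | rfl <;> simp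
  simp only [this]
  rcases hp with rfl | rfl <;> rcases hq with rfl | rfl <;> simp [psi, psi0]

lemma M_refl (p q : ℤ) (hp : p = 1 ∨ p = -1) (hq : q = 1 ∨ q = -1) (a b : ℝ) :
    M a b = M (p * a) (q * b) := by
  unfold M
  rw [← (refl2 p q (by rcases hp with rfl | rfl <;> rfl)
    (by rcases hq with rfl | rfl <;> rfl)).tsum_eq]
  refine tsum_congr fun x => ?_
  simp only [refl2, Equiv.coe_fn_mk, w_refl p q hp hq]
  congr 2
  simp; ring

lemma hasSum_cosh {a b : ℝ} (ha : |a| ≤ 1) (hb : |b| ≤ 1) :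
    HasSum (fun x : Fin 2 → ℤ => w x * (Real.cosh (a * x 0) * Real.cosh (b * x 1))) (M a b) := by
  have h1 := (summable_M ha hb).hasSum
  have h2 := (summable_M (a := -a) (by simpa using ha) hb).hasSum
  have h3 := (summable_M (b := -b) ha (by simpa using hb)).hasSum
  have h4 := (summable_M (a := -a) (b := -b) (by simpa using ha) (by simpa using hb)).hasSum
  have e2 : M a b = M (-a) b := by simpa using M_refl (-1) 1 (by simp) (by simp) a b
  have e3 : M a b = M a (-b) := by simpa using M_refl 1 (-1) (by simp) (by simp) a b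
  have e4 : M a b = M (-a) (-b) := by simpa using M_refl (-1) (-1) (by simp) (by simp) a b
  have := (((h1.add h2).add h3).add h4).div_const 4
  have e : M a b = (M a b + M (-a) b + M a (-b) + M (-a) (-b)) / 4 := by
    rw [← e2, ← e3, ← e4]; ring
  have e' : (fun x : Fin 2 → ℤ => w x * (Real.cosh (a * x 0) * Real.cosh (b * x 1))) = fun x =>
      (w x * Real.exp (a * x 0 + b * x 1) + w x * Real.exp (-a * x 0 + b * x 1)
        + w x * Real.exp (a * x 0 + -b * x 1) + w x * Real.exp (-a * x 0 + -b * x 1)) / 4 := by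
    funext x
    simp only [Real.cosh_eq, Real.exp_add, neg_mul]; ring
  rw [e, e']
  exact this

lemma cosh_term {a b a' b' : ℝ} (h1 : |a| ≤ |a'|) (h2 : |b| ≤ |b'|) (x : Fin 2 → ℤ) :
    w x * (Real.cosh (a * x 0) * Real.cosh (b * x 1))
      ≤ w x * (Real.cosh (a' * x 0) * Real.cosh (b' * x 1)) := by
  refine mul_le_mul_of_nonneg_left (mul_le_mul ?_ ?_ (Real.cosh_pos _).le (Real.cosh_pos _).le)
    (w_nonneg x)
  · rw [Real.cosh_le_cosh, abs_mul, abs_mul]; gcongr
  · rw [Real.cosh_le_cosh, abs_mul, abs_mul]; gcongr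

lemma M_mono {a b a' b' : ℝ} (h1 : |a| ≤ |a'|) (h2 : |b| ≤ |b'|) (ha : |a'| ≤ 1) (hb : |b'| ≤ 1) :
    M a b ≤ M a' b' :=
  hasSum_le (cosh_term h1 h2) (hasSum_cosh (h1.trans ha) (h2.trans hb)) (hasSum_cosh ha hb)

lemma M_strict {a b a' b' : ℝ} (h1 : |a| ≤ |a'|) (h2 : |b| ≤ |b'|) (h3 : |a| < |a'| ∨ |b| < |b'|)
    (ha : |a'| ≤ 1) (hb : |b'| ≤ 1) : M a b < M a' b' := by
  refine hasSum_lt (i := ![1, 1]) (cosh_term h1 h2) ?_
    (hasSum_cosh (h1.trans ha) (h2.trans hb)) (hasSum_cosh ha hb)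
  refine mul_lt_mul_of_pos_left ?_ (J_pos (fun y _ => psi_pos y) (by decide))
  simp only [Matrix.cons_val_zero, Matrix.cons_val_one, Int.cast_one, mul_one]
  rcases h3 with h | h
  · exact mul_lt_mul (Real.cosh_lt_cosh.2 h) (Real.cosh_le_cosh.2 h2) (Real.cosh_pos _)
      (Real.cosh_pos _).le
  · exact mul_lt_mul' (Real.cosh_le_cosh.2 h1) (Real.cosh_lt_cosh.2 h) (Real.cosh_pos _).le
      (Real.cosh_pos _)

lemma M_zero : M 0 0 = 1 := by
  simpa [M, w] using hasSum_J.tsum_eq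

lemma M_small {η : ℝ} (h0 : 0 ≤ η) (h1 : η ≤ 1) : M η η ≤ 1 + η * ∑' x, psi x := by
  have hη : |η| ≤ 1 := by rwa [abs_of_nonneg h0]
  refine hasSum_le (fun x => ?_) (summable_M hη hη).hasSum
    (hasSum_J.add (summable_psi.hasSum.mul_left η))
  have h2 := convexOn_exp.2 (Set.mem_univ ((x 0 : ℝ) + x 1)) (Set.mem_univ 0) h0
    (sub_nonneg.2 h1) (by ring)
  simp only [smul_eq_mul, mul_zero, add_zero, Real.exp_zero, mul_one] at h2
  have h3 := w_exp_le (a := 1) (b := 1) (by simp) (by simp) x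
  rw [one_mul, one_mul] at h3
  rw [← mul_add]
  have h4 := mul_le_mul_of_nonneg_left h2 (w_nonneg x)
  have h5 := mul_le_mul_of_nonneg_left h3 h0
  have h6 := mul_nonneg (w_nonneg x) h0
  change _ ≤ w x + _
  nlinarith

lemma M_analytic {b : ℝ} (hb : |b| < 1) : AnalyticAt ℝ (fun b => M 1 b) b := by
  have hU : IsOpen {z : ℂ | |z.re| < 1} :=
    isOpen_lt (continuous_abs.comp Complex.continuous_re) continuous_const
  have hd := Complex.differentiableOn_tsum_of_summable_norm (U := {z : ℂ | |z.re| < 1})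
    (F := fun (x : Fin 2 → ℤ) (z : ℂ) => (w x : ℂ) * Complex.exp (x 0 + z * x 1)) summable_psi
    (fun x => Differentiable.differentiableOn (by fun_prop)) hU (fun x z hz => by
      rw [norm_mul, Complex.norm_real, Real.norm_eq_abs, abs_of_nonneg (w_nonneg x),
        Complex.norm_exp]
      have := w_exp_le (a := 1) (b := z.re) (by simp) (le_of_lt hz) x
      simpa using this)
  have ha := (hd.analyticAt (hU.mem_nhds (show (b : ℂ) ∈ _ by simpa using hb))).re_ofReal
  refine ha.congr (Eventually.of_forall fun y => ?_)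
  simp only [M]
  rw [← Complex.ofReal_re (∑' x : Fin 2 → ℤ, w x * Real.exp (1 * x 0 + y * x 1)),
    Complex.ofReal_tsum]
  congr 1
  refine tsum_congr fun x => ?_
  push_cast
  simp

lemma first_le_one {a b : ℝ}
    (h : Summable fun x : Fin 2 → ℤ => w x * Real.exp (a * x 0 + b * x 1)) : a ≤ 1 := by
  by_contra hlt
  push Not at hlt
  have hinj : Function.Injective fun k : ℕ => (![(k : ℤ) + 1, 0] : Fin 2 → ℤ) := by
    intro k l hkl
    simpa using congrFun hkl 0
  have h1 := (h.comp_injective hinj).tendsto_atTop_zero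
  have h2 : Tendsto (fun k : ℕ => Real.exp ((a - 1) * ((k : ℝ) + 2)) / ((k : ℝ) + 2) ^ (3 : ℝ)
      * (Real.exp (-(a - 1)) / ZZ)) atTop atTop :=
    ((tendsto_exp_mul_div_rpow_atTop 3 (a - 1) (by linarith)).comp
      (tendsto_atTop_add_const_right _ 2 tendsto_natCast_atTop_atTop)).atTop_mul_const
      (div_pos (Real.exp_pos _) ZZ_pos)
  refine not_tendsto_nhds_of_tendsto_atTop h2 0 (h1.congr fun k => ?_)
  have hk : (0 : ℝ) ≤ (k : ℝ) + 1 := by positivity
  have hne : (![(k : ℤ) + 1, 0] : Fin 2 → ℤ) ≠ 0 := by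
    intro h
    have := congrFun h 0
    simp only [Matrix.cons_val_zero, Pi.zero_apply] at this
    omega
  simp only [Function.comp, w_eq, if_neg hne, psi, psi0, Fin.prod_univ_two, Matrix.cons_val_zero,
    Matrix.cons_val_one, Int.cast_add, Int.cast_natCast, Int.cast_one, Int.cast_zero, abs_zero,
    abs_of_nonneg hk, add_zero, mul_zero]
  rw [show (3 : ℝ) = ((3 : ℕ) : ℝ) by norm_num, Real.rpow_natCast, mul_assoc, ← Real.exp_add,
    div_mul_div_comm _ _ (Real.exp _), ← Real.exp_add,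
    show (a - 1) * ((k : ℝ) + 2) + -(a - 1) = -((k : ℝ) + 1) + a * (k + 1) by ring,
    show (1 : ℝ) + (k + 1) = k + 2 by ring]
  have := ZZ_pos.ne'
  field_simp

end Pool.Agent.MP_07406a_pr

end

-- part MP_07406a_pr.Main
section

/-! Non-analyticity of the inverse correlation length beyond saturation. -/

set_option autoImplicit false

namespace Pool.Agent.MP_07406a_pr

open Filter Topology

lemma le_of_eps {x y : ℝ} (h : ∀ ε : ℝ, 0 < ε → ε < 1 → (1 - ε) * x ≤ y) : x ≤ y := by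
  have h1 : Tendsto (fun ε : ℝ => (1 - ε) * x) (𝓝[>] 0) (𝓝 ((1 - 0) * x)) :=
    tendsto_nhdsWithin_of_tendsto_nhds (Continuous.tendsto (by fun_prop) 0)
  rw [sub_zero, one_mul] at h1
  refine le_of_tendsto h1 ?_
  filter_upwards [Ioo_mem_nhdsGT zero_lt_one] with ε hε using h ε hε.1 hε.2

/-- first moment bound -/
noncomputable def KK : ℝ := ∑' x : Fin 2 → ℤ, psi x * (1 + |(x 0 : ℝ)| + |(x 1 : ℝ)|)

lemma KK_pos : 0 < KK :=
  summable_psi1.tsum_pos (fun x => mul_nonneg (psi_pos x).le (by positivity)) 0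
    (mul_pos (psi_pos _) (by positivity))

lemma tangent {τ : ℝ} (hτ : |τ| ≤ 1) : ∃ A B : ℝ, A ≤ KK ∧ ∀ a b : ℝ,
    (Summable fun x : Fin 2 → ℤ => w x * Real.exp (a * x 0 + b * x 1)) →
      M 1 τ + (a - 1) * A + (b - τ) * B ≤ M a b := by
  have hb : ∀ (x : Fin 2 → ℤ) (i : Fin 2), ‖w x * Real.exp (1 * x 0 + τ * x 1) * x i‖
      ≤ psi x * (1 + |(x 0 : ℝ)| + |(x 1 : ℝ)|) := by
    intro x i
    rw [Real.norm_eq_abs, abs_mul, abs_of_nonneg (mul_nonneg (w_nonneg x) (Real.exp_pos _).le)]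
    refine mul_le_mul (w_exp_le (by simp) hτ x) ?_ (abs_nonneg _) (psi_pos x).le
    fin_cases i <;> simp <;> linarith [abs_nonneg (x 0 : ℝ), abs_nonneg (x 1 : ℝ)]
  have s0 := Summable.of_norm_bounded summable_psi1 fun x => hb x 0
  have s1 := Summable.of_norm_bounded summable_psi1 fun x => hb x 1
  refine ⟨∑' x : Fin 2 → ℤ, w x * Real.exp (1 * x 0 + τ * x 1) * x 0,
    ∑' x : Fin 2 → ℤ, w x * Real.exp (1 * x 0 + τ * x 1) * x 1, ?_, fun a b hab => ?_⟩
  · exact s0.tsum_le_tsum (fun x => (le_abs_self _).trans (hb x 0)) summable_psi1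
  · refine hasSum_le (fun x => ?_) (((summable_M (a := 1) (by simp) hτ).hasSum.add
      (s0.hasSum.mul_left (a - 1))).add (s1.hasSum.mul_left (b - τ))) hab.hasSum
    have e : Real.exp (a * x 0 + b * x 1) = Real.exp (1 * x 0 + τ * x 1)
        * Real.exp ((a - 1) * x 0 + (b - τ) * x 1) := by
      rw [← Real.exp_add]; congr 1; ring
    have h1 := Real.add_one_le_exp ((a - 1) * x 0 + (b - τ) * x 1)
    have h2 := mul_le_mul_of_nonneg_left h1 (mul_nonneg (w_nonneg x)
      (Real.exp_pos (1 * x 0 + τ * x 1)).le)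
    rw [e]
    nlinarith

lemma m_pos : 0 < M 1 (1 / 3) - M 1 0 :=
  sub_pos.2 (M_strict le_rfl (by simp) (Or.inr (by simp)) (by simp)
    (by rw [abs_of_pos] <;> norm_num))

/-- slope of the direction -/
noncomputable def RR : ℝ := KK / (2 * (M 1 (1 / 3) - M 1 0))

lemma RR_pos : 0 < RR := div_pos KK_pos (by linarith [m_pos])

lemma face {τ : ℝ} (h1 : 1 / 3 ≤ τ) (h2 : τ ≤ 1 / 2) {a b : ℝ}
    (hab : Summable fun x : Fin 2 → ℤ => w x * Real.exp (a * x 0 + b * x 1))
    (hlt : M a b < M 1 τ) : a * RR + b ≤ RR + τ := by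
  have hτ : |τ| ≤ 1 := by rw [abs_of_pos] <;> linarith
  obtain ⟨A, B, hA, hT⟩ := tangent hτ
  have ha := first_le_one hab
  have t1 := hT a b hab
  have t2 := hT 1 0 (summable_M (by simp) (by simp))
  have t3 : M 1 (1 / 3) ≤ M 1 τ := M_mono le_rfl
    (by rw [abs_of_pos, abs_of_pos] <;> linarith) (by simp) hτ
  have hm := m_pos
  have hB : 2 * (M 1 (1 / 3) - M 1 0) ≤ B := by
    by_contra hB
    push Not at hB
    nlinarith
  have hR := RR_pos
  rcases le_or_gt b τ with h | h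
  · nlinarith
  · have e : RR * (2 * (M 1 (1 / 3) - M 1 0)) = KK := by
      unfold RR; field_simp
    have t4 : (b - τ) * (2 * (M 1 (1 / 3) - M 1 0)) ≤ (1 - a) * KK := by nlinarith
    rw [← e] at t4
    have : b - τ ≤ (1 - a) * RR := by
      by_contra hc
      push Not at hc
      nlinarith
    linarith

lemma lamC_one : lamC N1 psi = 1 := lamC_eq (fun y => (psi_pos y).le) hasSum_J

lemma nu_lower {lam : ℝ} (hl : 0 < lam) (hl1 : lam < 1) {a b : ℝ} (ha : |a| ≤ 1) (hb : |b| ≤ 1)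
    (h : lam * M a b < 1) (s : Fin 2 → ℝ) : a * s 0 + b * s 1 ≤ nu N1 psi s lam := by
  have := (krw (fun y => (psi_pos y).le) (fun y _ => psi_pos y) hasSum_J hl hl1).2.1 ![a, b]
    ((summable_M ha hb).congr fun x => (tilt_eq a b x).symm) (by simp only [tilt_eq]; exact h) s
  simpa [dotProduct] using this

lemma nu_norm {lam : ℝ} (hl : 0 < lam) (hl1 : lam < 1) :
    ∃ η : ℝ, 0 < η ∧ ∀ s : Fin 2 → ℝ, η * (|s 0| + |s 1|) ≤ nu N1 psi s lam := by
  have hP : 0 ≤ ∑' x, psi x := tsum_nonneg fun x => (psi_pos x).le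
  set P := ∑' x, psi x with hPdef
  set η := (1 - lam) / (1 + P) with hη
  have hη0 : 0 < η := div_pos (by linarith) (by linarith)
  have hη1 : η * (1 + P) = 1 - lam := by rw [hη]; field_simp
  have hη2 : η ≤ 1 := by nlinarith
  have hM := M_small hη0.le hη2
  have hlt : lam * M η η < 1 := by
    have : lam * M η η ≤ lam * (1 + η * P) := mul_le_mul_of_nonneg_left hM hl.le
    nlinarith [mul_nonneg hη0.le hP]
  refine ⟨η, hη0, fun s => ?_⟩
  have key : ∀ r : ℝ, ∃ a : ℝ, |a| = |η| ∧ a * r = η * |r| := by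
    intro r
    rcases le_or_gt 0 r with h | h
    · exact ⟨η, rfl, by rw [abs_of_nonneg h]⟩
    · exact ⟨-η, abs_neg η, by rw [abs_of_neg h]; ring⟩
  obtain ⟨a, ha1, ha2⟩ := key (s 0)
  obtain ⟨b, hb1, hb2⟩ := key (s 1)
  have hη3 : |η| ≤ 1 := by rwa [abs_of_pos hη0]
  have := nu_lower hl hl1 (ha1.le.trans hη3) (hb1.le.trans hη3)
    ((mul_le_mul_of_nonneg_left (M_mono ha1.le hb1.le hη3 hη3) hl.le).trans_lt hlt) s
  linarith

lemma nu_upper {lam : ℝ} (hl : 0 < lam) (hl1 : lam < 1) {τ : ℝ} (h1 : 1 / 3 ≤ τ) (h2 : τ ≤ 1 / 2)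
    (h : 1 ≤ lam * M 1 τ) {c : ℝ} (hc : 0 < c) :
    nu N1 psi ![RR * c, c] lam ≤ RR * c + τ * c := by
  obtain ⟨η, hη, hν⟩ := nu_norm hl hl1
  obtain ⟨t, ht1, ht2⟩ := (krw (fun y => (psi_pos y).le) (fun y _ => psi_pos y) hasSum_J hl hl1).2.2
    (fun ε hε => by
      refine Summable.of_nonneg_of_le (fun _ => (Real.exp_pos _).le) (fun x => ?_)
        (summable_prod (summable_exp_int (mul_pos hε hη)) (summable_exp_int (mul_pos hε hη))
          (fun _ => (Real.exp_pos _).le) (fun _ => (Real.exp_pos _).le))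
      rw [← Real.exp_add, Real.exp_le_exp]
      have := mul_le_mul_of_nonneg_left (hν fun i => (x i : ℝ)) hε.le
      linarith) ![RR * c, c] (fun h => hc.ne' (by simpa using congrFun h 1))
  refine le_of_eps fun ε hε hε1 => ?_
  obtain ⟨s1, s2⟩ := ht2 ε hε hε1
  have e : (1 - ε) • t = ![(1 - ε) * t 0, (1 - ε) * t 1] := by
    funext i; fin_cases i <;> simp
  rw [e] at s1 s2
  simp only [tilt_eq] at s2
  have s1' := s1.congr fun x => tilt_eq _ _ x
  have s3 : M ((1 - ε) * t 0) ((1 - ε) * t 1) < M 1 τ :=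
    lt_of_mul_lt_mul_left (s2.trans_le h) hl.le
  have s4 := mul_le_mul_of_nonneg_right (face h1 h2 s1' s3) hc.le
  rw [← ht1]
  simp only [dotProduct, Fin.sum_univ_two, Matrix.cons_val_zero, Matrix.cons_val_one]
  linarith

lemma lamExp_one : lamExp N1 psi = 1 := by
  have : {lam : ℝ | 0 < lam ∧ lam < lamC N1 psi ∧
      ⨅ s : {s : Fin 2 → ℝ // ∑ i, s i ^ 2 = 1}, nu N1 psi s lam = 0} = ∅ := by
    rw [Set.eq_empty_iff_forall_notMem]
    rintro lam ⟨hl, hl1, h⟩
    rw [lamC_one] at hl1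
    obtain ⟨η, hη, hν⟩ := nu_norm hl hl1
    have : Nonempty {s : Fin 2 → ℝ // ∑ i, s i ^ 2 = 1} := ⟨⟨![1, 0], by simp⟩⟩
    have h2 : η ≤ ⨅ s : {s : Fin 2 → ℝ // ∑ i, s i ^ 2 = 1}, nu N1 psi s lam := by
      refine le_ciInf fun s => le_trans ?_ (hν s)
      have h3 := s.2
      rw [Fin.sum_univ_two, ← sq_abs (s.1 0), ← sq_abs (s.1 1)] at h3
      have h4 : 1 ≤ |s.1 0| + |s.1 1| := by
        by_contra h5
        push Not at h5
        nlinarith [abs_nonneg (s.1 0), abs_nonneg (s.1 1)]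
      nlinarith
    linarith
  rw [lamExp, this, lamC_one]
  simp

theorem main : ∃ s : Fin 2 → ℝ, ∑ i, s i ^ 2 = 1 ∧ ∃ lam : ℝ, lamSat N1 psi s < lam ∧
    lam < lamExp N1 psi ∧ ¬ AnalyticAt ℝ (nu N1 psi s) lam := by
  have hR := RR_pos
  set c : ℝ := (Real.sqrt (RR ^ 2 + 1))⁻¹ with hcdef
  have hc : 0 < c := by positivity
  have hc2 : c ^ 2 * (RR ^ 2 + 1) = 1 := by
    rw [hcdef, inv_pow, Real.sq_sqrt (by positivity)]; field_simp
  set s : Fin 2 → ℝ := ![RR * c, c] with hs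
  refine ⟨s, by simp [hs]; linarith, ?_⟩
  by_contra hcon
  push Not at hcon
  rw [lamExp_one] at hcon
  set η : ℝ := 1 / (2 * RR + 1) with hη
  have hη0 : 0 < η := by positivity
  have hη1 : η * (2 * RR + 1) = 1 := by rw [hη]; field_simp
  have hη2 : η ≤ 1 := by nlinarith
  have a1 : |1 - η| ≤ 1 := by rw [abs_of_nonneg] <;> linarith
  have a2 : |1 - η| < |(1 : ℝ)| := by rw [abs_of_nonneg, abs_one] <;> linarith
  have m0 : 1 ≤ M (1 - η) 0 := by
    rw [← M_zero]; exact M_mono (by simp) le_rfl (by rwa [M_zero]) (by simp)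
  have m1 : M (1 - η) 0 < M 1 0 := M_strict a2.le le_rfl (Or.inl a2) (by simp) (by simp)
  have m2 : M 1 0 < M 1 (1 / 3) := by linarith [m_pos]
  have m3 : M 1 (1 / 3) < M 1 (1 / 2) := M_strict le_rfl
    (by rw [abs_of_pos, abs_of_pos] <;> norm_num)
    (Or.inr (by rw [abs_of_pos, abs_of_pos] <;> norm_num)) (by simp)
    (by rw [abs_of_pos] <;> norm_num)
  set la := (M 1 (1 / 2))⁻¹ with hla
  set lb := (M 1 (1 / 3))⁻¹ with hlb
  set lc := (M 1 0)⁻¹ with hlc
  set ld := (M (1 - η) 0)⁻¹ with hld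
  have hla0 : 0 < la := inv_pos.2 (by linarith)
  have hab : la < lb := inv_strictAnti₀ (by linarith) m3
  have hbc : lb < lc := inv_strictAnti₀ (by linarith) m2
  have hcd : lc < ld := inv_strictAnti₀ (by linarith) m1
  have hd1 : ld ≤ 1 := inv_le_one_of_one_le₀ m0
  have hup : ∀ lam, la ≤ lam → lam < 1 → nu N1 psi s lam ≤ RR * c + 1 / 2 * c := by
    intro lam h1 h2
    refine nu_upper (hla0.trans_le h1) h2 (by norm_num) le_rfl ?_ hc
    have : la * M 1 (1 / 2) = 1 := inv_mul_cancel₀ (by linarith)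
    nlinarith
  have hsat : lamSat N1 psi s ≤ la := by
    refine Real.sSup_le ?_ hla0.le
    rintro lam ⟨h1, h2, h3⟩
    rw [lamC_one] at h2
    by_contra h4
    push Not at h4
    have h5 := hup lam h4.le h2
    have h6 : N1 s = RR * c + c := by
      simp [N1, hs, abs_of_pos hc, abs_of_pos hR]
    linarith
  set τ : ℝ → ℝ := fun lam => (nu N1 psi s lam - RR * c) / c with hτ
  have hF : AnalyticOnNhd ℝ (fun lam => lam * M 1 (τ lam)) (Set.Ioo la ld) := by
    intro lam hlam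
    have h1 : AnalyticAt ℝ τ lam :=
      ((hcon lam (hsat.trans_lt hlam.1) (hlam.2.trans_le hd1)).sub analyticAt_const).div_const
    have h2 : |τ lam| < 1 := by
      have u := hup lam hlam.1.le (hlam.2.trans_le hd1)
      have l := nu_lower (hla0.trans hlam.1) (hlam.2.trans_le hd1) (b := 0) a1 (by simp) (by
        have : ld * M (1 - η) 0 = 1 := inv_mul_cancel₀ (by linarith)
        nlinarith [hlam.2]) s
      simp only [hs, Matrix.cons_val_zero, zero_mul, add_zero] at l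
      rw [abs_lt, hτ]
      simp only
      rw [lt_div_iff₀ hc, div_lt_iff₀ hc]
      constructor
      · have : η * RR * c < 1 * c := mul_lt_mul_of_pos_right (by nlinarith) hc
        simp only [hs]; nlinarith
      · linarith
    exact analyticAt_id.mul ((M_analytic h2).comp_of_eq h1 rfl)
  have hone : ∀ lam ∈ Set.Ioo la lb, lam * M 1 (τ lam) = 1 := by
    intro lam hlam
    have hl0 := hla0.trans hlam.1
    have hl1 : lam < 1 := by linarith [hlam.2]
    have hcont : ContinuousOn (fun b => M 1 b) (Set.Icc (1 / 3) (1 / 2)) := fun b hb =>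
      (M_analytic (by rw [abs_of_pos] <;> linarith [hb.1, hb.2])).continuousAt.continuousWithinAt
    obtain ⟨b, hb, hb2⟩ := intermediate_value_Icc (by norm_num) hcont (show lam⁻¹ ∈ _ from
      ⟨(lt_inv_of_lt_inv₀ hl0 hlam.2).le, (inv_lt_of_inv_lt₀ (by linarith) hlam.1).le⟩)
    simp only at hb2
    have hb3 : lam * M 1 b = 1 := by rw [hb2]; exact mul_inv_cancel₀ hl0.ne'
    have u := nu_upper hl0 hl1 hb.1 hb.2 hb3.ge hc
    have l : b * c ≤ nu N1 psi s lam - RR * c := by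
      refine le_of_eps fun ε hε hε1 => ?_
      have hb0 : 0 < b := by linarith [hb.1]
      have q1 : |(1 - ε) * b| < |b| := by
        rw [abs_of_pos (by nlinarith), abs_of_pos hb0]; nlinarith
      have q2 : |b| ≤ 1 := by rw [abs_of_pos hb0]; linarith [hb.2]
      have q3 := M_strict (a := 1) (a' := 1) le_rfl q1.le (Or.inr q1) (by simp) q2
      have := nu_lower hl0 hl1 (a := 1) (by simp) (q1.le.trans q2) (by nlinarith) s
      simp only [hs, Matrix.cons_val_zero, Matrix.cons_val_one] at this ⊢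
      linarith
    have : τ lam = b := by
      simp only [hτ]
      rw [div_eq_iff hc.ne']
      linarith
    rw [this, hb3]
  have hid := hF.eqOn_of_preconnected_of_eventuallyEq (g := fun _ => (1 : ℝ)) analyticOnNhd_const
    isPreconnected_Ioo (z₀ := (la + lb) / 2) ⟨by linarith, by linarith⟩
    (Filter.mem_of_superset (Ioo_mem_nhds (show la < (la + lb) / 2 by linarith)
      (show (la + lb) / 2 < lb by linarith)) fun x hx => hone x hx)
  have hmem : (lc + ld) / 2 ∈ Set.Ioo la ld := ⟨by linarith, by linarith⟩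
  have h1 : (lc + ld) / 2 * M 1 (τ ((lc + ld) / 2)) = 1 := hid hmem
  have h2 : |τ ((lc + ld) / 2)| ≤ 1 := by
    have u := hup _ hmem.1.le (hmem.2.trans_le hd1)
    have l := nu_lower (hla0.trans hmem.1) (hmem.2.trans_le hd1) (b := 0) a1 (by simp) (by
      have : ld * M (1 - η) 0 = 1 := inv_mul_cancel₀ (by linarith)
      nlinarith [hmem.2]) s
    simp only [hs, Matrix.cons_val_zero, zero_mul, add_zero] at l
    rw [abs_le, hτ]
    simp only
    rw [le_div_iff₀ hc, div_le_iff₀ hc]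
    constructor
    · have : η * RR * c < 1 * c := mul_lt_mul_of_pos_right (by nlinarith) hc
      simp only [hs]; nlinarith
    · linarith
  have h3 : M 1 0 ≤ M 1 (τ ((lc + ld) / 2)) := M_mono le_rfl (by simp) (by simp) h2
  have h4 : lc * M 1 0 = 1 := inv_mul_cancel₀ (by linarith)
  nlinarith

end Pool.Agent.MP_07406a_pr

end
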